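import Pool.Agent.helper60.DA.SpecV

namespace Pool.Agent.helper60.DA

open Polynomial Finset Pool.Agent.helper60.DK

theorem JH_X (n : ℕ) : (X : ℤ[X]) * derivative (X ^ n) = (n : ℤ[X]) * X ^ n := by
  cases n with
  | zero => simp
  | succ n =>
    rw [derivative_X_pow, Nat.add_sub_cancel, pow_succ]
    have : (C ((n + 1 : ℕ) : ℤ) : ℤ[X]) = ((n + 1 : ℕ) : ℤ[X]) := by simp
    rw [this]; ring

theorem JH_Y (n : ℕ) : (1 + X : ℤ[X]) * derivative ((1 + X) ^ n) = (n : ℤ[X]) * (1 + X) ^ n := by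
  cases n with
  | zero => simp
  | succ n =>
    rw [derivative_pow, Nat.add_sub_cancel, derivative_add, derivative_one, derivative_X, pow_succ]
    have : (C ((n + 1 : ℕ) : ℤ) : ℤ[X]) = ((n + 1 : ℕ) : ℤ[X]) := by simp
    rw [this]; ring

/-- the summand -/
noncomputable def JH_f (h : ℕ) (t : ℕ → ℤ) (k : ℕ) : ℤ[X] :=
  C (t k * 16 ^ (h - k)) * (X ^ (2 * k) * (1 + X) ^ (3 * (h - k)))

/-- the logarithmic derivative -/
noncomputable def JH_l (h k : ℕ) : ℤ[X] := 2 * (k : ℤ[X]) + (3 * (h : ℤ[X]) - (k : ℤ[X])) * X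

/-- second derivative -/
noncomputable def JH_m (h k : ℕ) : ℤ[X] :=
  JH_l h k ^ 2 + X * (1 + X) * (3 * (h : ℤ[X]) - (k : ℤ[X])) - (1 + 2 * X) * JH_l h k

theorem JH_d1 (h : ℕ) (t : ℕ → ℤ) (k : ℕ) (hk : k ≤ h) :
    X * (1 + X) * derivative (JH_f h t k) = JH_l h k * JH_f h t k := by
  obtain ⟨a, rfl⟩ := Nat.exists_eq_add_of_le hk
  unfold JH_f JH_l
  rw [Nat.add_sub_cancel_left, derivative_C_mul, derivative_mul]
  have h1 := JH_X (2 * k)
  have h2 := JH_Y (3 * a)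
  push_cast at h1 h2 ⊢
  linear_combination (C (t k * 16 ^ a) * (1 + X) * (1 + X) ^ (3 * a)) * h1
    + (C (t k * 16 ^ a) * X * X ^ (2 * k)) * h2

theorem JH_d2 (h : ℕ) (t : ℕ → ℤ) (k : ℕ) (hk : k ≤ h) :
    X ^ 2 * (1 + X) ^ 2 * derivative (derivative (JH_f h t k)) = JH_m h k * JH_f h t k := by
  have h1 := JH_d1 h t k hk
  have h2 := congrArg derivative h1
  have hl : derivative (JH_l h k) = 3 * (h : ℤ[X]) - (k : ℤ[X]) := by
    unfold JH_l
    simp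
  rw [derivative_mul, derivative_mul, derivative_mul, hl, derivative_add, derivative_one,
    derivative_X] at h2
  unfold JH_m
  linear_combination (X * (1 + X)) * h2 + (JH_l h k - (1 + 2 * X)) * h1

/-- double sums -/
noncomputable def JH_D (h : ℕ) (t : ℕ → ℤ) (G : ℕ → ℕ → ℤ[X]) : ℤ[X] :=
  ∑ i ∈ range (h + 1), ∑ j ∈ range (h + 1), JH_f h t i * JH_f h t j * G i j

theorem JH_D_add (h : ℕ) (t : ℕ → ℤ) (G G' : ℕ → ℕ → ℤ[X]) :
    JH_D h t (fun i j => G i j + G' i j) = JH_D h t G + JH_D h t G' := by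
  unfold JH_D
  simp only [mul_add, Finset.sum_add_distrib]

theorem JH_D_mul (h : ℕ) (t : ℕ → ℤ) (c : ℤ[X]) (G : ℕ → ℕ → ℤ[X]) :
    JH_D h t (fun i j => c * G i j) = c * JH_D h t G := by
  unfold JH_D
  rw [Finset.mul_sum]
  refine Finset.sum_congr rfl fun i _ => ?_
  rw [Finset.mul_sum]
  exact Finset.sum_congr rfl fun j _ => by ring

theorem JH_D_lin (h : ℕ) (t : ℕ → ℤ) (c1 c2 c3 c4 c5 : ℤ[X]) (G1 G2 G3 G4 G5 : ℕ → ℕ → ℤ[X]) :
    JH_D h t (fun i j => c1 * G1 i j + (c2 * G2 i j + (c3 * G3 i j + (c4 * G4 i j + c5 * G5 i j))))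
      = c1 * JH_D h t G1 + (c2 * JH_D h t G2 + (c3 * JH_D h t G3 + (c4 * JH_D h t G4
        + c5 * JH_D h t G5))) := by
  rw [← JH_D_mul, ← JH_D_mul, ← JH_D_mul, ← JH_D_mul, ← JH_D_mul, ← JH_D_add, ← JH_D_add,
    ← JH_D_add, ← JH_D_add]

theorem JH_D_prod (h : ℕ) (t : ℕ → ℤ) (a b : ℕ → ℤ[X]) :
    (∑ i ∈ range (h + 1), a i * JH_f h t i) * (∑ j ∈ range (h + 1), b j * JH_f h t j)
      = JH_D h t (fun i j => a i * b j) := by
  unfold JH_D
  rw [Finset.sum_mul_sum]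
  exact Finset.sum_congr rfl fun i _ => Finset.sum_congr rfl fun j _ => by ring

theorem JH_D_symm (h : ℕ) (t : ℕ → ℤ) (G : ℕ → ℕ → ℤ[X]) (hG : ∀ i j, G i j + G j i = 0) :
    JH_D h t G = 0 := by
  have h1 : JH_D h t G = JH_D h t (fun i j => G j i) := by
    unfold JH_D
    rw [Finset.sum_comm]
    exact Finset.sum_congr rfl fun i _ => Finset.sum_congr rfl fun j _ => by ring
  have h2 : JH_D h t G + JH_D h t G = 0 := by
    nth_rewrite 2 [h1]
    rw [← JH_D_add]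
    unfold JH_D
    refine Finset.sum_eq_zero fun i _ => Finset.sum_eq_zero fun j _ => ?_
    simp only [hG, mul_zero]
  have h3 : (2 : ℤ[X]) * JH_D h t G = 0 := by rw [two_mul]; exact h2
  exact (mul_eq_zero.1 h3).resolve_left (by norm_num)

theorem JH_Iq (h : ℕ) (t : ℕ → ℤ) :
    ∑ m ∈ range (2 * h + 2), C (Iq h t m * 16 ^ (2 * h + 1 - m))
        * (X ^ (2 * m) * (1 + X) ^ (3 * (2 * h + 1 - m)))
      = JH_D h t (fun i j => 16 * (1 + X) ^ 3 * (2 * (j : ℤ[X]) ^ 2 - (i : ℤ[X]) * (j : ℤ[X]))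
          - X ^ 2 * (216 * (j : ℤ[X]) ^ 2 - 108 * (i : ℤ[X]) * (j : ℤ[X]) + 108 * (j : ℤ[X]) + 24)) := by
  let g : ℕ → ℤ[X] := fun m => C (16 ^ (2 * h + 1 - m)) * (X ^ (2 * m) * (1 + X) ^ (3 * (2 * h + 1 - m)))
  have h1 : ∀ m, C (Iq h t m * 16 ^ (2 * h + 1 - m))
        * (X ^ (2 * m) * (1 + X) ^ (3 * (2 * h + 1 - m)))
      = ∑ i ∈ range (h + 1), ∑ j ∈ range (h + 1),
        ((if i + j = m then C (t i * t j * (2 * (j : ℤ) ^ 2 - i * j)) * g m else 0)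
        - (if i + j + 1 = m then C (t i * t j * (216 * (j : ℤ) ^ 2 - 108 * i * j + 108 * j + 24)) * g m
            else 0)) := by
    intro m
    rw [map_mul, mul_assoc]
    unfold Iq
    rw [map_sum, Finset.sum_mul]
    refine Finset.sum_congr rfl fun i _ => ?_
    rw [map_sum, Finset.sum_mul]
    refine Finset.sum_congr rfl fun j _ => ?_
    simp only [g]
    split_ifs <;> simp only [map_mul, map_sub, map_zero, sub_zero, zero_sub, mul_zero, zero_mul,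
      map_neg] <;> ring
  simp only [h1]
  rw [Finset.sum_comm]
  unfold JH_D
  refine Finset.sum_congr rfl fun i hi => ?_
  rw [Finset.sum_comm]
  refine Finset.sum_congr rfl fun j hj => ?_
  rw [Finset.sum_sub_distrib, Finset.sum_ite_eq, Finset.sum_ite_eq]
  have hi' : i ≤ h := by have := Finset.mem_range.1 hi; omega
  have hj' : j ≤ h := by have := Finset.mem_range.1 hj; omega
  rw [if_pos (Finset.mem_range.2 (by omega)), if_pos (Finset.mem_range.2 (by omega))]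
  obtain ⟨a, ha⟩ := Nat.exists_eq_add_of_le hi'
  obtain ⟨b, hb⟩ := Nat.exists_eq_add_of_le hj'
  have e1 : 2 * h + 1 - (i + j) = a + b + 1 := by omega
  have e2 : 2 * h + 1 - (i + j + 1) = a + b := by omega
  have e3 : h - i = a := by omega
  have e4 : h - j = b := by omega
  simp only [g, e1, e2, JH_f, e3, e4]
  have c16 : (C (16 : ℤ) : ℤ[X]) = 16 := map_ofNat C 16
  have c2 : (C (2 : ℤ) : ℤ[X]) = 2 := map_ofNat C 2
  have c216 : (C (216 : ℤ) : ℤ[X]) = 216 := map_ofNat C 216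
  have c108 : (C (108 : ℤ) : ℤ[X]) = 108 := map_ofNat C 108
  have c24 : (C (24 : ℤ) : ℤ[X]) = 24 := map_ofNat C 24
  have ci : (C (i : ℤ) : ℤ[X]) = (i : ℤ[X]) := by simp
  have cj : (C (j : ℤ) : ℤ[X]) = (j : ℤ[X]) := by simp
  simp only [map_mul, map_sub, map_add, map_pow, c16, c2, c216, c108, c24, ci, cj]
  ring

theorem JH : JH_stmt := by
  intro h t
  have hH : Hh h t = ∑ k ∈ range (h + 1), 1 * JH_f h t k := by
    unfold Hh JH_f
    exact Finset.sum_congr rfl fun k _ => by rw [one_mul]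
  have hB : X * (1 + X) * derivative (Hh h t) = ∑ k ∈ range (h + 1), JH_l h k * JH_f h t k := by
    rw [hH, derivative_sum, Finset.mul_sum]
    refine Finset.sum_congr rfl fun k hk => ?_
    rw [one_mul]
    exact JH_d1 h t k (by have := Finset.mem_range.1 hk; omega)
  have hM : X ^ 2 * (1 + X) ^ 2 * derivative (derivative (Hh h t))
      = ∑ k ∈ range (h + 1), JH_m h k * JH_f h t k := by
    rw [hH, derivative_sum, derivative_sum, Finset.mul_sum]
    refine Finset.sum_congr rfl fun k hk => ?_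
    rw [one_mul]
    exact JH_d2 h t k (by have := Finset.mem_range.1 hk; omega)
  have pAA := JH_D_prod h t (fun _ => 1) (fun _ => 1)
  have pAB := JH_D_prod h t (fun _ => 1) (fun j => JH_l h j)
  have pAM := JH_D_prod h t (fun _ => 1) (fun j => JH_m h j)
  have pBB := JH_D_prod h t (fun i => JH_l h i) (fun j => JH_l h j)
  rw [← hH] at pAA pAB pAM
  rw [← hB] at pAB pBB
  rw [← hM] at pAM
  have hlin := JH_D_lin h t (8 * (1 + 4 * X)) (-4 * (1 + 4 * X))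
    (8 * (1 + 8 * X + 10 * X ^ 2) - 12 * (2 * (h : ℤ[X]) + 1) * (X * (1 + 4 * X)))
    ((12 * X + 51 * X ^ 2 + 36 * X ^ 3)
          + (9 * (2 * (h : ℤ[X]) + 1) ^ 2 + 12 * (2 * (h : ℤ[X]) + 1)) * (X ^ 2 * (1 + 4 * X))
          - 12 * (2 * (h : ℤ[X]) + 1) * (X * (1 + 8 * X + 10 * X ^ 2))) (-1)
    (fun _ j => 1 * JH_m h j) (fun i j => JH_l h i * JH_l h j) (fun _ j => 1 * JH_l h j)
    (fun _ _ => 1 * 1)
    (fun i j => 16 * (1 + X) ^ 3 * (2 * (j : ℤ[X]) ^ 2 - (i : ℤ[X]) * (j : ℤ[X]))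
          - X ^ 2 * (216 * (j : ℤ[X]) ^ 2 - 108 * (i : ℤ[X]) * (j : ℤ[X]) + 108 * (j : ℤ[X]) + 24))
  have hz := hlin.symm.trans (JH_D_symm h t _ (by
    intro i j
    simp only [JH_m, JH_l]
    ring))
  rw [← pAM, ← pBB, ← pAB, ← pAA, ← JH_Iq] at hz
  have c9 : (C (9 * (2 * (h : ℤ) + 1) ^ 2 + 12 * (2 * (h : ℤ) + 1)) : ℤ[X])
      = 9 * (2 * (h : ℤ[X]) + 1) ^ 2 + 12 * (2 * (h : ℤ[X]) + 1) := by
    simp
  have c12 : (C (12 * (2 * (h : ℤ) + 1)) : ℤ[X]) = 12 * (2 * (h : ℤ[X]) + 1) := by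
    simp
  rw [c9, c12]
  unfold Jop
  linear_combination hz

end Pool.Agent.helper60.DA
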